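import Pool.Agent.Y888.Q440.Gen

/-!
# The digits of the records (task VAL): data checks
-/

set_option autoImplicit false
set_option maxRecDepth 100000

namespace Pool.Agent.Y888.Q440

open Finset Pool.Agent.Y440 Pool.Agent.Y440.K

attribute [local irreducible] Pool.Agent.Y440.K.gR

/-- packed weights -/
def P1 : ℕ := 0x1b6000001b6000001b600001410000006b300000d4100000d4100000d41000009d800003e6900003b580000dc270000050d0000050d0000050d00000a8100000f69000118ca000011c60000c75a000a26450053e28e0078efe8000827100038480a006c8995006c8995006c89950013c5bb0013c5bb0013c5bb0018b6e70018b6e70018b6e7000e826b000e826b000e826b0012860e0012860e0012860e0005d08b0005d08b0005d08b002e1f340015b116001f429700071f1e000ed11400038c70003286ec003286ec003286ec0044f8580044f8580044f85800405e5f00405e5f00405e5f001c481b001c481b001c481b00138dab00138dab00138dab002dfd31002dfd31002dfd31000594c6000594c6000594c60003a5f80003a5f80003a5f80000a7580000a7580000a7580001a7020001a7020001a702014428c00050689a00350b8a00e1309700219beb00047c45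

theorem c1_0 : ct 1024 256 85 P1 2616 63498602944 5231 2371586299826448 = true := by
  decide +kernel

theorem c1_1 : ct 1280 256 85 P1 2616 63498602944 5231 2371586299826448 = true := by
  decide +kernel

theorem c1_2 : ct 1536 256 85 P1 2616 63498602944 5231 2371586299826448 = true := by
  decide +kernel

theorem c1_3 : ct 1792 256 85 P1 2616 63498602944 5231 2371586299826448 = true := by
  decide +kernel

theorem v1 : (∀ f < 1024, ∀ g < 1024, (dd (1024 * 1 + f) (1024 * 1 + g) : ℤ) =
      cof + ∑ k ∈ range (dm 1), (dw 1 k : ℤ) * ((el 1 f k : ℤ) - ofs 1) *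
        ((el 1 g k : ℤ) - ofs 1)) ∧ ∀ f < 1024, gR (1024 * 1 + f) < 2 ^ 9744 := by
  refine val_type (t := 1) (D := 85) (P := P1) (o := 2616) (α := 63498602944) (M := 5231)
    (W := 2371586299826448) (by norm_num) (by norm_num) (by norm_num) (by unfold XX; norm_num)
    (by unfold XX; norm_num) ?_ (by decide +kernel) (by decide +kernel) (by decide +kernel) ?_
  · rw [← Nat.cast_sum, cof]
    have h : ∑ k ∈ range 85, dk P1 k = 168553005 := by decide +kernel
    rw [h]
    norm_num
  · intro f hf
    rcases Nat.lt_or_ge f 256 with h0 | h0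
    · have h := ct_spec c1_0 (f - 0) (by omega)
      rwa [show 1024 + (f - 0) = 1024 * 1 + f by omega] at h
    rcases Nat.lt_or_ge f 512 with h1 | h1
    · have h := ct_spec c1_1 (f - 256) (by omega)
      rwa [show 1280 + (f - 256) = 1024 * 1 + f by omega] at h
    rcases Nat.lt_or_ge f 768 with h2 | h2
    · have h := ct_spec c1_2 (f - 512) (by omega)
      rwa [show 1536 + (f - 512) = 1024 * 1 + f by omega] at h
    have h := ct_spec c1_3 (f - 768) (by omega)
    rwa [show 1792 + (f - 768) = 1024 * 1 + f by omega] at h

end Pool.Agent.Y888.Q440
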