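import Pool.Agent.Y888.Q440.Gen

/-!
# The digits of the records (task VAL): data checks
-/

set_option autoImplicit false
set_option maxRecDepth 100000

namespace Pool.Agent.Y888.Q440

open Finset Pool.Agent.Y440 Pool.Agent.Y440.K

attribute [local irreducible] Pool.Agent.Y440.K.gR

/-- packed weights -/
def P2 : ℕ := 0x18950000116f000005f4000005f4000012c900000b3c00000a9000001c77000082a5000025d70000260400000e430003394c000ac4cf00146aab0012f29f00362b110000e43e0032e09d0038cf44009c0d8f009c0d8f004a3740004a37400039efa70039efa7004386270043862700376a9200376a92002547a3002547a30014c7710014c7710013b9110013b911001e445a001e445a00097d3000097d300006375d0006375d0000cbdd0000cbdd00513844008c9980001db283001fcdf1003b2cfc00146eb5000622a00064ffe4004213110014a915001057d4000b73c2000de5e100010c29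

theorem c2_0 : ct 2048 512 58 P2 2798 33728932926 5595 2186968354490460 = true := by
  decide +kernel

theorem c2_1 : ct 2560 512 58 P2 2798 33728932926 5595 2186968354490460 = true := by
  decide +kernel

theorem v2 : (∀ f < 1024, ∀ g < 1024, (dd (1024 * 2 + f) (1024 * 2 + g) : ℤ) =
      cof + ∑ k ∈ range (dm 2), (dw 2 k : ℤ) * ((el 2 f k : ℤ) - ofs 2) *
        ((el 2 g k : ℤ) - ofs 2)) ∧ ∀ f < 1024, gR (1024 * 2 + f) < 2 ^ 9744 := by
  refine val_type (t := 2) (D := 58) (P := P2) (o := 2798) (α := 33728932926) (M := 5595)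
    (W := 2186968354490460) (by norm_num) (by norm_num) (by norm_num) (by unfold XX; norm_num)
    (by unfold XX; norm_num) ?_ (by decide +kernel) (by decide +kernel) (by decide +kernel) ?_
  · rw [← Nat.cast_sum, cof]
    have h : ∑ k ∈ range 58, dk P2 k = 123756723 := by decide +kernel
    rw [h]
    norm_num
  · intro f hf
    rcases Nat.lt_or_ge f 512 with h0 | h0
    · have h := ct_spec c2_0 (f - 0) (by omega)
      rwa [show 2048 + (f - 0) = 1024 * 2 + f by omega] at h
    have h := ct_spec c2_1 (f - 512) (by omega)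
    rwa [show 2560 + (f - 512) = 1024 * 2 + f by omega] at h

/-- packed weights -/
def P6 : ℕ := 0x9ed3f00104980002ac77b001b378c000e78a200448b32002e833a00a4caf100500dd8007b494c0035bb31001e393e003b64b6001959ec000ff0a500083617009482a00050859900182d7f00335f12005da106001b780a000ef74700056a9e

theorem c6_0 : ct 6144 1024 24 P6 500 10799857000 1000 1238299143691168 = true := by
  decide +kernel

theorem v6 : (∀ f < 1024, ∀ g < 1024, (dd (1024 * 6 + f) (1024 * 6 + g) : ℤ) =
      cof + ∑ k ∈ range (dm 6), (dw 6 k : ℤ) * ((el 6 f k : ℤ) - ofs 6) *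
        ((el 6 g k : ℤ) - ofs 6)) ∧ ∀ f < 1024, gR (1024 * 6 + f) < 2 ^ 9744 := by
  refine val_type (t := 6) (D := 24) (P := P6) (o := 500) (α := 10799857000) (M := 1000)
    (W := 1238299143691168) (by norm_num) (by norm_num) (by norm_num) (by unfold XX; norm_num)
    (by unfold XX; norm_num) ?_ (by decide +kernel) (by decide +kernel) (by decide +kernel) ?_
  · rw [← Nat.cast_sum, cof]
    have h : ∑ k ∈ range 24, dk P6 k = 80791669 := by decide +kernel
    rw [h]
    norm_num
  · intro f hf
    exact ct_spec c6_0 f hf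

end Pool.Agent.Y888.Q440
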