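import Pool.Agent.Y888.Q440.Gen

/-!
# The digits of the records (task VAL): data checks
-/

set_option autoImplicit false
set_option maxRecDepth 100000

namespace Pool.Agent.Y888.Q440

open Finset Pool.Agent.Y440 Pool.Agent.Y440.K

attribute [local irreducible] Pool.Agent.Y440.K.gR

/-- packed weights -/
def P9 : ℕ := 0x210560000458e000596ee000596ee000596ee001696f8001696f8001696f80075ac620075ac620075ac620014fcac0014fcac0014fcac0027ef200027ef200027ef200007efe80044353a004fb09c01255a3a

theorem c9_0 : ct 9216 1024 21 P9 1570 39796052220 2794 1391246588843568 = true := by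
  decide +kernel

theorem v9 : (∀ f < 1024, ∀ g < 1024, (dd (1024 * 9 + f) (1024 * 9 + g) : ℤ) =
      cof + ∑ k ∈ range (dm 9), (dw 9 k : ℤ) * ((el 9 f k : ℤ) - ofs 9) *
        ((el 9 g k : ℤ) - ofs 9)) ∧ ∀ f < 1024, gR (1024 * 9 + f) < 2 ^ 9744 := by
  refine val_type (t := 9) (D := 21) (P := P9) (o := 1570) (α := 39796052220) (M := 2794)
    (W := 1391246588843568) (by norm_num) (by norm_num) (by norm_num) (by unfold XX; norm_num)
    (by unfold XX; norm_num) ?_ (by decide +kernel) (by decide +kernel) (by decide +kernel) ?_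
  · rw [← Nat.cast_sum, cof]
    have h : ∑ k ∈ range 21, dk P9 k = 70244376 := by decide +kernel
    rw [h]
    norm_num
  · intro f hf
    exact ct_spec c9_0 f hf

/-- packed weights -/
def P10 : ℕ := 0xa004001a2f2d00b22ed2000f664d000f664d000f664d000f664d000f664d000f664d001c79be

theorem c10_0 : ct 10240 1024 10 P10 1400 22187048600 2799 1259958827681168 = true := by
  decide +kernel

theorem v10 : (∀ f < 1024, ∀ g < 1024, (dd (1024 * 10 + f) (1024 * 10 + g) : ℤ) =
      cof + ∑ k ∈ range (dm 10), (dw 10 k : ℤ) * ((el 10 f k : ℤ) - ofs 10) *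
        ((el 10 g k : ℤ) - ofs 10)) ∧ ∀ f < 1024, gR (1024 * 10 + f) < 2 ^ 9744 := by
  refine val_type (t := 10) (D := 10) (P := P10) (o := 1400) (α := 22187048600) (M := 2799)
    (W := 1259958827681168) (by norm_num) (by norm_num) (by norm_num) (by unfold XX; norm_num)
    (by unfold XX; norm_num) ?_ (by decide +kernel) (by decide +kernel) (by decide +kernel) ?_
  · rw [← Nat.cast_sum, cof]
    have h : ∑ k ∈ range 10, dk P10 k = 21355919 := by decide +kernel
    rw [h]
    norm_num
  · intro f hf
    exact ct_spec c10_0 f hf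

/-- packed weights -/
def P11 : ℕ := 0x1fc84500090236000902360009023600090236000902360009023600021ab600021ab600021ab600348bfd00348bfd00348bfd000362bc000362bc000362bc0009feb40009feb40009feb40055ea210055ea210055ea21000a50ec0041de460026522200df2aee

theorem c11_0 : ct 11264 1024 26 P11 500 14625518000 1000 1232606736191168 = true := by
  decide +kernel

theorem v11 : (∀ f < 1024, ∀ g < 1024, (dd (1024 * 11 + f) (1024 * 11 + g) : ℤ) =
      cof + ∑ k ∈ range (dm 11), (dw 11 k : ℤ) * ((el 11 f k : ℤ) - ofs 11) *
        ((el 11 g k : ℤ) - ofs 11)) ∧ ∀ f < 1024, gR (1024 * 11 + f) < 2 ^ 9744 := by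
  refine val_type (t := 11) (D := 26) (P := P11) (o := 500) (α := 14625518000) (M := 1000)
    (W := 1232606736191168) (by norm_num) (by norm_num) (by norm_num) (by unfold XX; norm_num)
    (by unfold XX; norm_num) ?_ (by decide +kernel) (by decide +kernel) (by decide +kernel) ?_
  · rw [← Nat.cast_sum, cof]
    have h : ∑ k ∈ range 26, dk P11 k = 58022039 := by decide +kernel
    rw [h]
    norm_num
  · intro f hf
    exact ct_spec c11_0 f hf

/-- packed weights -/
def P12 : ℕ := 0x11f6d500c27d9b0128f9ef00c20bff0024e04500296ec4006770760212e33b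

theorem c12_0 : ct 12288 1024 8 P12 500 34792251000 1000 1241302832441168 = true := by
  decide +kernel

theorem v12 : (∀ f < 1024, ∀ g < 1024, (dd (1024 * 12 + f) (1024 * 12 + g) : ℤ) =
      cof + ∑ k ∈ range (dm 12), (dw 12 k : ℤ) * ((el 12 f k : ℤ) - ofs 12) *
        ((el 12 g k : ℤ) - ofs 12)) ∧ ∀ f < 1024, gR (1024 * 12 + f) < 2 ^ 9744 := by
  refine val_type (t := 12) (D := 8) (P := P12) (o := 500) (α := 34792251000) (M := 1000)
    (W := 1241302832441168) (by norm_num) (by norm_num) (by norm_num) (by unfold XX; norm_num)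
    (by unfold XX; norm_num) ?_ (by decide +kernel) (by decide +kernel) (by decide +kernel) ?_
  · rw [← Nat.cast_sum, cof]
    have h : ∑ k ∈ range 8, dk P12 k = 92806424 := by decide +kernel
    rw [h]
    norm_num
  · intro f hf
    exact ct_spec c12_0 f hf

/-- packed weights -/
def P13 : ℕ := 0x1908400019084000190840001908400019084000190840001908400019084000190840001908400a321a1

theorem c13_0 : ct 13312 1024 11 P13 500 10690977000 1000 1221030300691168 = true := by
  decide +kernel

theorem v13 : (∀ f < 1024, ∀ g < 1024, (dd (1024 * 13 + f) (1024 * 13 + g) : ℤ) =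
      cof + ∑ k ∈ range (dm 13), (dw 13 k : ℤ) * ((el 13 f k : ℤ) - ofs 13) *
        ((el 13 g k : ℤ) - ofs 13)) ∧ ∀ f < 1024, gR (1024 * 13 + f) < 2 ^ 9744 := by
  refine val_type (t := 13) (D := 11) (P := P13) (o := 500) (α := 10690977000) (M := 1000)
    (W := 1221030300691168) (by norm_num) (by norm_num) (by norm_num) (by unfold XX; norm_num)
    (by unfold XX; norm_num) ?_ (by decide +kernel) (by decide +kernel) (by decide +kernel) ?_
  · rw [← Nat.cast_sum, cof]
    have h : ∑ k ∈ range 11, dk P13 k = 11716297 := by decide +kernel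
    rw [h]
    norm_num
  · intro f hf
    exact ct_spec c13_0 f hf

end Pool.Agent.Y888.Q440
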