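import Pool.Agent.Y888.Q440.Gen

/-!
# The digits of the records (task VAL): data checks
-/

set_option autoImplicit false
set_option maxRecDepth 100000

namespace Pool.Agent.Y888.Q440

open Finset Pool.Agent.Y440 Pool.Agent.Y440.K

attribute [local irreducible] Pool.Agent.Y440.K.gR

/-- packed weights -/
def P7 : ℕ := 0x15bb98000479cb001b027a00585e6c000a618b000b9d4e0020751b00152b370039374d000651da000651da00102e1100102e11000eb775000eb7750017d0c40017d0c4007500f3007500f3003116af003116af00d4234f005e6fdd00391cf7002c89ea000f1a4300034b88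

theorem c7_0 : ct 7168 1024 27 P7 500 13902671000 1000 1237029619691168 = true := by
  decide +kernel

theorem v7 : (∀ f < 1024, ∀ g < 1024, (dd (1024 * 7 + f) (1024 * 7 + g) : ℤ) =
      cof + ∑ k ∈ range (dm 7), (dw 7 k : ℤ) * ((el 7 f k : ℤ) - ofs 7) *
        ((el 7 g k : ℤ) - ofs 7)) ∧ ∀ f < 1024, gR (1024 * 7 + f) < 2 ^ 9744 := by
  refine val_type (t := 7) (D := 27) (P := P7) (o := 500) (α := 13902671000) (M := 1000)
    (W := 1237029619691168) (by norm_num) (by norm_num) (by norm_num) (by unfold XX; norm_num)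
    (by unfold XX; norm_num) ?_ (by decide +kernel) (by decide +kernel) (by decide +kernel) ?_
  · rw [← Nat.cast_sum, cof]
    have h : ∑ k ∈ range 27, dk P7 k = 75713573 := by decide +kernel
    rw [h]
    norm_num
  · intro f hf
    exact ct_spec c7_0 f hf

/-- packed weights -/
def P8 : ℕ := 0x16a100200488003cdc54003ec27800008e72000b75a00012ba2400480f070002b4f7002c3c3b001341f1003c0c880069c63c00a7b9b2015a967700a3c0c50025be240032c3ab002f58f500181fc700231d280014e95500349e57

theorem c8_0 : ct 8192 1024 23 P8 2128 59692326300 3880 1644634017365968 = true := by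
  decide +kernel

theorem v8 : (∀ f < 1024, ∀ g < 1024, (dd (1024 * 8 + f) (1024 * 8 + g) : ℤ) =
      cof + ∑ k ∈ range (dm 8), (dw 8 k : ℤ) * ((el 8 f k : ℤ) - ofs 8) *
        ((el 8 g k : ℤ) - ofs 8)) ∧ ∀ f < 1024, gR (1024 * 8 + f) < 2 ^ 9744 := by
  refine val_type (t := 8) (D := 23) (P := P8) (o := 2128) (α := 59692326300) (M := 3880)
    (W := 1644634017365968) (by norm_num) (by norm_num) (by norm_num) (by unfold XX; norm_num)
    (by unfold XX; norm_num) ?_ (by decide +kernel) (by decide +kernel) (by decide +kernel) ?_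
  · rw [← Nat.cast_sum, cof]
    have h : ∑ k ∈ range 23, dk P8 k = 94190950 := by decide +kernel
    rw [h]
    norm_num
  · intro f hf
    exact ct_spec c8_0 f hf

end Pool.Agent.Y888.Q440
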