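import Pool.Agent.Y888.Q440.VA
import Pool.Agent.Y888.Q440.VB
import Pool.Agent.Y888.Q440.VC
import Pool.Agent.Y888.Q440.VD
import Pool.Agent.Y888.Q440.VE

/-!
# The digits of the records (task VAL)
-/

set_option autoImplicit false
set_option maxRecDepth 100000

namespace Pool.Agent.Y888.Q440

open Finset Pool.Agent.Y440 Pool.Agent.Y440.K

attribute [local irreducible] Pool.Agent.Y440.K.gR

theorem last_val : dd 14336 14336 = 1218101226441168 := by decide +kernel

theorem last_siz : gR 14336 < 2 ^ 9744 := by decide +kernel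

theorem all_siz : ∀ t < 14, ∀ f < 1024, gR (1024 * t + f) < 2 ^ 9744 := by
  intro t ht
  match t, ht with
  | 0, _ => exact v0.2
  | 1, _ => exact v1.2
  | 2, _ => exact v2.2
  | 3, _ => exact v3.2
  | 4, _ => exact v4.2
  | 5, _ => exact v5.2
  | 6, _ => exact v6.2
  | 7, _ => exact v7.2
  | 8, _ => exact v8.2
  | 9, _ => exact v9.2
  | 10, _ => exact v10.2
  | 11, _ => exact v11.2
  | 12, _ => exact v12.2
  | 13, _ => exact v13.2

theorem t : Pool.Agent.Y440.K.S_val := by
  refine ⟨?_, ?_, ?_⟩
  · intro t ht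
    match t, ht with
    | 0, _ => exact v0.1
    | 1, _ => exact v1.1
    | 2, _ => exact v2.1
    | 3, _ => exact v3.1
    | 4, _ => exact v4.1
    | 5, _ => exact v5.1
    | 6, _ => exact v6.1
    | 7, _ => exact v7.1
    | 8, _ => exact v8.1
    | 9, _ => exact v9.1
    | 10, _ => exact v10.1
    | 11, _ => exact v11.1
    | 12, _ => exact v12.1
    | 13, _ => exact v13.1
  · rw [last_val]
    rfl
  · intro q hq
    rcases Nat.lt_or_ge q 14336 with h | h
    · have h1 := all_siz (q / 1024) (by omega) (q % 1024) (by omega)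
      rwa [Nat.div_add_mod] at h1
    · rw [show q = 14336 by omega]
      exact last_siz

end Pool.Agent.Y888.Q440
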