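import Pool.Agent.Y440.K.Stm

/-!
# The digits of the records (task VAL): general lemmas
-/

set_option autoImplicit false
set_option maxRecDepth 100000

namespace Pool.Agent.Y888.Q440
open Finset

theorem geo {X α : ℕ} (hX : 2 ≤ X) {a : ℕ → ℕ} : ∀ {s : ℕ}, (∀ i < s + 1, a i ≤ α) →
    ∑ i ∈ range (s + 1), a i * X ^ i ≤ 2 * α * X ^ s
  | 0, h => by
    have := h 0 (by omega)
    simp
    omega
  | s + 1, h => by
    have h1 := geo (X := X) (α := α) hX (a := a) (s := s) fun i hi => h i (by omega)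
    have h2 := h (s + 1) (by omega)
    rw [sum_range_succ]
    have h3 : 2 * X ^ s ≤ X ^ (s + 1) := by
      rw [pow_succ]
      nlinarith [pow_pos (show 0 < X by omega) s]
    calc ∑ i ∈ range (s + 1), a i * X ^ i + a (s + 1) * X ^ (s + 1)
        ≤ 2 * α * X ^ s + α * X ^ (s + 1) := Nat.add_le_add h1 (Nat.mul_le_mul_right _ h2)
      _ ≤ α * X ^ (s + 1) + α * X ^ (s + 1) := by
        have := Nat.mul_le_mul_left α h3
        nlinarith
      _ = 2 * α * X ^ (s + 1) := by ring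

theorem split_at {X N : ℕ} (a : ℕ → ℕ) {s : ℕ} (hs : s < N) :
    ∃ H, ∑ i ∈ range N, a i * X ^ i =
      ∑ i ∈ range s, a i * X ^ i + a s * X ^ s + X ^ (s + 1) * H := by
  obtain ⟨m, rfl⟩ : ∃ m, N = s + 1 + m := ⟨N - (s + 1), by omega⟩
  refine ⟨∑ i ∈ range m, a (s + 1 + i) * X ^ i, ?_⟩
  rw [sum_range_add, sum_range_succ, mul_sum]
  congr 1
  refine sum_congr rfl fun i _ => ?_
  rw [pow_add]
  ring

/-- the middle lane of a product -/
theorem mid {X K N α M : ℕ} (hX : 2 ≤ X) (hN : 0 < N) (hK : 1 ≤ K) (hNK : N ≤ K + 1) {a b : ℕ → ℕ}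
    (ha : ∀ i, i + 1 < N → a i ≤ α) (hb : ∀ s, 1 ≤ s → s < N → b s ≤ M)
    (h1 : 2 * (N - 1) * α * M < X) (h2 : ∑ i ∈ range N, a i * b i < X) :
    ((∑ i ∈ range N, a i * X ^ i) * (∑ s ∈ range N, b s * X ^ (K - s))) / X ^ K % X =
      ∑ i ∈ range N, a i * b i := by
  choose! H hH using fun (s : ℕ) (hs : s < N) => split_at (X := X) (N := N) a hs
  have e1 : (∑ i ∈ range N, a i * X ^ i) * (∑ s ∈ range N, b s * X ^ (K - s)) =
      (∑ s ∈ range N, b s * (∑ i ∈ range s, a i * X ^ i) * X ^ (K - s)) +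
        X ^ K * ((∑ i ∈ range N, a i * b i) + X * ∑ s ∈ range N, b s * H s) := by
    rw [mul_sum, mul_add, mul_sum, mul_sum, mul_sum, ← sum_add_distrib, ← sum_add_distrib]
    refine sum_congr rfl fun s hs => ?_
    rw [mem_range] at hs
    rw [hH s hs]
    have e2 : X ^ K = X ^ s * X ^ (K - s) := by rw [← pow_add]; congr 1; omega
    rw [e2, pow_succ]
    ring
  have e3 : ∑ s ∈ range N, b s * (∑ i ∈ range s, a i * X ^ i) * X ^ (K - s) < X ^ K := by
    obtain ⟨n, rfl⟩ : ∃ n, N = n + 1 := ⟨N - 1, by omega⟩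
    rw [sum_range_succ']
    have e4 : ∀ s ∈ range n, b (s + 1) * (∑ i ∈ range (s + 1), a i * X ^ i) * X ^ (K - (s + 1)) ≤
        2 * α * M * X ^ (K - 1) := by
      intro s hs
      rw [mem_range] at hs
      have g1 := geo (X := X) (α := α) hX (a := a) (s := s) fun i hi => ha i (by omega)
      have g2 := hb (s + 1) (by omega) (by omega)
      calc b (s + 1) * (∑ i ∈ range (s + 1), a i * X ^ i) * X ^ (K - (s + 1))
          ≤ M * (2 * α * X ^ s) * X ^ (K - (s + 1)) :=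
            Nat.mul_le_mul_right _ (Nat.mul_le_mul g2 g1)
        _ = 2 * α * M * (X ^ s * X ^ (K - (s + 1))) := by ring
        _ = 2 * α * M * X ^ (K - 1) := by
          rw [← pow_add]; congr 2; omega
    have e5 := sum_le_card_nsmul _ _ _ e4
    rw [card_range, smul_eq_mul] at e5
    have e6 : X ^ K = X * X ^ (K - 1) := by rw [← pow_succ']; congr 1; omega
    have e7 : 0 < X ^ (K - 1) := pow_pos (by omega) _
    rw [e6]
    simp only [range_zero, sum_empty, mul_zero, zero_mul, add_zero]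
    refine lt_of_le_of_lt e5 ?_
    rw [Nat.add_sub_cancel] at h1
    calc n * (2 * α * M * X ^ (K - 1)) = (2 * n * α * M) * X ^ (K - 1) := by ring
      _ < X * X ^ (K - 1) := (Nat.mul_lt_mul_right e7).2 h1
  rw [e1, Nat.add_mul_div_left _ _ (pow_pos (by omega) _), Nat.div_eq_of_lt e3, zero_add,
    Nat.add_mul_mod_self_left, Nat.mod_eq_of_lt h2]

theorem lo_lt {X : ℕ} {a : ℕ → ℕ} : ∀ {n : ℕ}, (∀ i < n, a i < X) →
    ∑ i ∈ range n, a i * X ^ i < X ^ n
  | 0, _ => by simp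
  | n + 1, h => by
    have h1 := lo_lt (X := X) (a := a) (n := n) fun i hi => h i (by omega)
    have h2 := h n (by omega)
    rw [sum_range_succ, pow_succ]
    have h3 : (a n + 1) * X ^ n ≤ X * X ^ n := Nat.mul_le_mul_right _ h2
    nlinarith

theorem hi_lt {X K : ℕ} {b : ℕ → ℕ} : ∀ {n : ℕ}, n ≤ K + 1 → (∀ i < n, b i < X) →
    ∑ s ∈ range n, b s * X ^ (K - s) + X ^ (K + 1 - n) ≤ X ^ (K + 1)
  | 0, _, _ => by simp
  | n + 1, hn, h => by
    have h1 := hi_lt (X := X) (K := K) (b := b) (n := n) (by omega) fun i hi => h i (by omega)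
    have h2 := h n (by omega)
    rw [sum_range_succ]
    have e1 : K + 1 - n = K - n + 1 := by omega
    have e2 : K + 1 - (n + 1) = K - n := by omega
    rw [e1, pow_succ] at h1
    rw [e2]
    have h3 : (b n + 1) * X ^ (K - n) ≤ X * X ^ (K - n) := Nat.mul_le_mul_right _ h2
    nlinarith

theorem sum_ends {f : ℕ → ℕ} {D : ℕ} :
    ∑ i ∈ range (D + 2), f i = f 0 + (∑ k ∈ range D, f (k + 1)) + f (D + 1) := by
  rw [sum_range_succ, sum_range_succ', add_comm _ (f 0)]

/-- the digits of a record -/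
def da (D w : ℕ) (d e : ℕ → ℕ) (i : ℕ) : ℕ :=
  if i = 0 then 1 else if i = D + 1 then w else d (i - 1) * e (i - 1)

def db (D w : ℕ) (e : ℕ → ℕ) (i : ℕ) : ℕ :=
  if i = 0 then w else if i = D + 1 then 1 else e (i - 1)

/-- the first half of a record -/
def PA (X D w : ℕ) (d e : ℕ → ℕ) : ℕ :=
  1 + (∑ k ∈ range D, d k * e k * X ^ (k + 1)) + w * X ^ (D + 1)

/-- the second half of a record -/
def PB (X K D w : ℕ) (e : ℕ → ℕ) : ℕ :=
  w * X ^ K + (∑ k ∈ range D, e k * X ^ (K - (k + 1))) + X ^ (K - (D + 1))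

theorem PA_eq (X D w : ℕ) (d e : ℕ → ℕ) :
    PA X D w d e = ∑ i ∈ range (D + 2), da D w d e i * X ^ i := by
  rw [sum_ends, PA]
  congr 1
  · congr 1
    refine sum_congr rfl fun k hk => ?_
    rw [mem_range] at hk
    rw [da, if_neg (by omega), if_neg (by omega), Nat.add_sub_cancel]
  · rw [da, if_neg (by omega), if_pos rfl]

theorem PB_eq (X K D w : ℕ) (e : ℕ → ℕ) :
    PB X K D w e = ∑ i ∈ range (D + 2), db D w e i * X ^ (K - i) := by
  rw [sum_ends, PB]
  congr 1
  · congr 1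
    refine sum_congr rfl fun k hk => ?_
    rw [mem_range] at hk
    rw [db, if_neg (by omega), if_neg (by omega), Nat.add_sub_cancel]
  · rw [db, if_neg (by omega), if_pos rfl, one_mul]

theorem mid2 {X K D α M w w' : ℕ} (hX : 2 ≤ X) (hK : D + 2 ≤ K + 1) {d e e' : ℕ → ℕ}
    (hα : 1 ≤ α) (hM : 1 ≤ M)
    (ha : ∀ k < D, d k * e k ≤ α) (hb : ∀ k < D, e' k ≤ M)
    (h1 : 2 * (D + 1) * α * M < X)
    (h2 : w' + (∑ k ∈ range D, d k * e k * e' k) + w < X) :
    (PA X D w d e * PB X K D w' e') / X ^ K % X =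
      w' + (∑ k ∈ range D, d k * e k * e' k) + w := by
  have e1 : ∑ i ∈ range (D + 2), da D w d e i * db D w' e' i =
      w' + (∑ k ∈ range D, d k * e k * e' k) + w := by
    rw [sum_ends]
    congr 1
    · congr 1
      · simp [da, db]
      · refine sum_congr rfl fun k hk => ?_
        rw [mem_range] at hk
        rw [da, db, if_neg (by omega), if_neg (by omega), if_neg (by omega), if_neg (by omega),
          Nat.add_sub_cancel]
    · rw [da, db, if_neg (by omega), if_pos rfl, if_neg (by omega), if_pos rfl, mul_one]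
  rw [PA_eq, PB_eq, mid (α := α) (M := M) hX (by omega) (by omega) hK ?_ ?_ (by simpa using h1)
    (by rw [e1]; exact h2), e1]
  · intro i hi
    rw [da]
    split_ifs with g1 g2
    · exact hα
    · omega
    · exact ha _ (by omega)
  · intro s hs hs'
    rw [db]
    split_ifs with g1 g2
    · omega
    · exact hM
    · exact hb _ (by omega)

/-- the halves of a record -/
theorem halves {X K D α M w : ℕ} (hX : 2 ≤ X) (hK : D + 2 ≤ K + 1) {d e : ℕ → ℕ}
    (ha : ∀ k < D, d k * e k ≤ α) (hb : ∀ k < D, e k ≤ M)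
    (hαX : α < X) (hMX : M < X) (hw : w < X) :
    PA X D w d e < X ^ (K + 1) ∧ PB X K D w e < X ^ (K + 1) := by
  constructor
  · rw [PA_eq]
    refine lt_of_lt_of_le (lo_lt ?_) (Nat.pow_le_pow_right (by omega) hK)
    intro i hi
    rw [da]
    split_ifs with g1 g2
    · omega
    · exact hw
    · exact lt_of_le_of_lt (ha _ (by omega)) hαX
  · rw [PB_eq]
    have h1 := hi_lt (X := X) (K := K) (b := db D w e) (n := D + 2) (by omega) ?_
    · have h2 : 0 < X ^ (K + 1 - (D + 2)) := pow_pos (by omega) _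
      omega
    · intro i hi
      rw [db]
      split_ifs with g1 g2
      · exact hw
      · omega
      · exact lt_of_le_of_lt (hb _ (by omega)) hMX


open Pool.Agent.Y440 Pool.Agent.Y440.K

attribute [local irreducible] Pool.Agent.Y440.K.gR

/-- sum of the first `n` values -/
def sm (n : ℕ) (f : ℕ → ℕ) : ℕ := @Nat.rec (fun _ => ℕ) 0 (fun k s => Nat.add s (f k)) n

theorem sm_eq (n : ℕ) (f : ℕ → ℕ) : sm n f = ∑ k ∈ range n, f k := by
  induction n with
  | zero => rfl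
  | succ n ih => rw [sum_range_succ, ← ih]; rfl

theorem al_spec {f : ℕ → Bool} : ∀ {n : ℕ}, B.al n f = true → ∀ k < n, f k = true
  | 0, _, k, hk => absurd hk (Nat.not_lt_zero k)
  | n + 1, h, k, hk => by
    have h0 : B.bc (f n) (B.al n f) false = true := h
    have h1 : f n = true ∧ B.al n f = true := by
      cases hf : f n with
      | false => rw [hf] at h0; exact absurd h0 (by simp [B.bc])
      | true => rw [hf] at h0; exact ⟨rfl, h0⟩
    rcases Nat.lt_succ_iff_lt_or_eq.1 hk with h2 | h2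
    · exact al_spec h1.2 k h2
    · rw [h2]; exact h1.1

theorem bc_spec {a b : Bool} (h : B.bc a b false = true) : a = true ∧ b = true := by
  cases a with
  | false => exact absurd h (by simp [B.bc])
  | true => exact ⟨rfl, h⟩

/-- lane `172 - k` -/
def ek (G k : ℕ) : ℕ := Nat.mod (Nat.shiftRight G (Nat.mul 56 (Nat.sub 172 k))) 72057594037927936

/-- weight number `k` of a packed list -/
def dk (P k : ℕ) : ℕ := Nat.mod (Nat.shiftRight P (Nat.mul 32 k)) 4294967296

/-- check of one record -/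
def ck (D P o α M W G : ℕ) : Bool :=
  B.st (fun w => B.bc
    (Nat.beq G (Nat.add (Nat.add (Nat.add 1 (Nat.shiftLeft 1 (Nat.mul 56 (Nat.sub 172 D))))
      (Nat.add (Nat.shiftLeft w (Nat.mul 56 (Nat.add D 1))) (Nat.shiftLeft w 9688)))
      (sm D fun k => B.st (fun e => Nat.add
        (Nat.shiftLeft (Nat.mul (dk P k) e) (Nat.mul 56 (Nat.add k 1)))
        (Nat.shiftLeft e (Nat.mul 56 (Nat.sub 172 k)))) (ek G k))))
    (B.bc (Nat.beq (Nat.mul 2 (Nat.add w (Nat.mul o (sm D fun k => Nat.mul (dk P k) (ek G k))))) W)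
      (B.al D fun k => B.st (fun e => B.bc (Nat.ble (Nat.mul (dk P k) e) α) (Nat.ble e M) false)
        (ek G k)) false) false)
    (Nat.shiftRight G 9688)

/-- check of all records of a type, from the flag `s` on, `n` flags -/
def ct (s n D P o α M W : ℕ) : Bool :=
  B.al n fun f => B.st (ck D P o α M W) (gR (Nat.add s f))

/-- the base -/
def XX : ℕ := 2 ^ 56

theorem sl (a m : ℕ) : Nat.shiftLeft a (Nat.mul 56 m) = a * XX ^ m := by
  rw [XX, ← pow_mul]
  exact Nat.shiftLeft_eq a (56 * m)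

theorem ck_spec {D P o α M W G : ℕ} (hD : D ≤ 85) (h : ck D P o α M W G = true) : ∃ w,
    G = PA XX D w (dk P) (ek G) + XX ^ 87 * PB XX 86 D w (ek G) ∧
    2 * (w + o * ∑ k ∈ range D, dk P k * ek G k) = W ∧
    (∀ k < D, dk P k * ek G k ≤ α) ∧ ∀ k < D, ek G k ≤ M := by
  rw [ck, B.st_eq] at h
  obtain ⟨h1, h2⟩ := bc_spec h
  obtain ⟨h3, h4⟩ := bc_spec h2
  refine ⟨Nat.shiftRight G 9688, ?_, ?_, ?_, ?_⟩
  · generalize Nat.shiftRight G 9688 = w at h1
    have h5 := Nat.eq_of_beq_eq_true h1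
    rw [show (9688 : ℕ) = Nat.mul 56 173 from rfl, sl, sl, sl, sm_eq] at h5
    have h6 : ∑ k ∈ range D, (B.st (fun e => Nat.add
        (Nat.shiftLeft (Nat.mul (dk P k) e) (Nat.mul 56 (Nat.add k 1)))
        (Nat.shiftLeft e (Nat.mul 56 (Nat.sub 172 k)))) (ek G k)) =
        ∑ k ∈ range D, dk P k * ek G k * XX ^ (k + 1) +
          ∑ k ∈ range D, ek G k * XX ^ (172 - k) := by
      rw [← sum_add_distrib]
      refine sum_congr rfl fun k _ => ?_
      rw [B.st_eq, sl, sl]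
      rfl
    rw [h6] at h5
    have h7 : XX ^ 87 * PB XX 86 D w (ek G) = w * XX ^ 173 +
        ∑ k ∈ range D, ek G k * XX ^ (172 - k) + XX ^ (172 - D) := by
      rw [PB, mul_add, mul_add, mul_sum]
      congr 1
      · congr 1
        · rw [show (173 : ℕ) = 87 + 86 from rfl, pow_add]; ring
        · refine sum_congr rfl fun k hk => ?_
          rw [mem_range] at hk
          rw [show 172 - k = 87 + (86 - (k + 1)) by omega, pow_add]; ring
      · rw [← pow_add]; congr 1; omega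
    rw [h7, PA]
    refine h5.trans ?_
    change 1 + 1 * XX ^ (172 - D) + (w * XX ^ (D + 1) + w * XX ^ 173) + _ = _
    ring
  · rw [sm_eq] at h3
    exact Nat.eq_of_beq_eq_true h3
  · intro k hk
    have h5 := al_spec h4 k hk
    rw [B.st_eq] at h5
    exact Nat.le_of_ble_eq_true (bc_spec h5).1
  · intro k hk
    have h5 := al_spec h4 k hk
    rw [B.st_eq] at h5
    exact Nat.le_of_ble_eq_true (bc_spec h5).2

theorem ct_spec {s n D P o α M W : ℕ} (h : ct s n D P o α M W = true) :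
    ∀ f < n, ck D P o α M W (gR (s + f)) = true := by
  intro f hf
  have h1 := al_spec h f hf
  rw [B.st_eq] at h1
  exact h1

theorem mR_eq : mR = 2 ^ 4872 - 1 := by decide +kernel

theorem dt_eq (r s : ℕ) :
    dt r 0 s 4872 = ((r % XX ^ 87) * (s / XX ^ 87 % XX ^ 87)) / XX ^ 86 % XX := by
  have e1 : XX ^ 87 = 2 ^ 4872 := by rw [XX, ← pow_mul]
  have e2 : XX ^ 86 = 2 ^ 4816 := by rw [XX, ← pow_mul]
  rw [e1, e2]
  have e3 : ∀ x : ℕ, Nat.land x mR = x % 2 ^ 4872 := by
    intro x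
    rw [mR_eq]
    exact Nat.and_two_pow_sub_one_eq_mod x 4872
  rw [dt, e3, e3]
  change ((r >>> 0) % 2 ^ 4872 * ((s >>> 4872) % 2 ^ 4872)) >>> 4816 % 72057594037927936 = _
  rw [Nat.shiftRight_zero, Nat.shiftRight_eq_div_pow, Nat.shiftRight_eq_div_pow]
  rfl

/-- the value from the checks -/
theorem val {D P o α M W G G' : ℕ} (hD : D ≤ 85) (hα : 1 ≤ α) (hM : 1 ≤ M)
    (h1 : 2 * (D + 1) * α * M < XX) (h2 : W + D * (α * M) < XX)
    (h3 : (W : ℤ) = cof + o ^ 2 * ∑ k ∈ range D, (dk P k : ℤ))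
    (hG : ck D P o α M W G = true) (hG' : ck D P o α M W G' = true) :
    (dt G 0 G' 4872 : ℤ) =
      cof + ∑ k ∈ range D, (dk P k : ℤ) * ((ek G k : ℤ) - o) * ((ek G' k : ℤ) - o) := by
  obtain ⟨w, a1, a2, a3, a4⟩ := ck_spec hD hG
  obtain ⟨w', b1, b2, b3, b4⟩ := ck_spec hD hG'
  have hX : 2 ≤ XX := by unfold XX; norm_num
  have hαX : α < XX := by nlinarith [Nat.mul_le_mul (Nat.mul_le_mul_left (2 * (D + 1)) (le_refl α)) hM]
  have hMX : M < XX := by nlinarith [Nat.mul_le_mul (Nat.mul_le_mul_left (2 * (D + 1)) hα) (le_refl M)]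
  have hw : w < XX := by omega
  have hw' : w' < XX := by omega
  obtain ⟨p1, p2⟩ := halves (K := 86) (d := dk P) (e := ek G) (w := w) hX (by omega) a3 a4 hαX
    hMX hw
  obtain ⟨q1, q2⟩ := halves (K := 86) (d := dk P) (e := ek G') (w := w') hX (by omega) b3 b4 hαX
    hMX hw'
  have hs : ∑ k ∈ range D, dk P k * ek G k * ek G' k ≤ D * (α * M) := by
    have := sum_le_card_nsmul (range D) (fun k => dk P k * ek G k * ek G' k) (α * M)
      fun k hk => Nat.mul_le_mul (a3 k (mem_range.1 hk)) (b4 k (mem_range.1 hk))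
    simpa using this
  have hm := mid2 (K := 86) (w := w) (w' := w') (d := dk P) (e := ek G) (e' := ek G') hX (by omega)
    hα hM a3 b4 h1 (by omega)
  have hd : dt G 0 G' 4872 = w' + (∑ k ∈ range D, dk P k * ek G k * ek G' k) + w := by
    rw [dt_eq, ← hm]
    have e1 : G % XX ^ 87 = PA XX D w (dk P) (ek G) := by
      conv_lhs => rw [a1]
      rw [Nat.add_mul_mod_self_left, Nat.mod_eq_of_lt p1]
    have e2 : G' / XX ^ 87 % XX ^ 87 = PB XX 86 D w' (ek G') := by
      conv_lhs => rw [b1]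
      rw [Nat.add_mul_div_left _ _ (pow_pos (by omega) _), Nat.div_eq_of_lt q1, zero_add,
        Nat.mod_eq_of_lt q2]
    rw [e1, e2]
  rw [hd]
  have a2' : 2 * ((w : ℤ) + o * ∑ k ∈ range D, (dk P k : ℤ) * ek G k) = W := by
    exact_mod_cast a2
  have b2' : 2 * ((w' : ℤ) + o * ∑ k ∈ range D, (dk P k : ℤ) * ek G' k) = W := by
    exact_mod_cast b2
  have e3 : ∑ k ∈ range D, (dk P k : ℤ) * ((ek G k : ℤ) - o) * ((ek G' k : ℤ) - o) =
      ∑ k ∈ range D, (dk P k : ℤ) * ek G k * ek G' k - o * ∑ k ∈ range D, (dk P k : ℤ) * ek G k -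
        o * ∑ k ∈ range D, (dk P k : ℤ) * ek G' k + o ^ 2 * ∑ k ∈ range D, (dk P k : ℤ) := by
    rw [mul_sum, mul_sum, mul_sum, ← sum_sub_distrib, ← sum_sub_distrib, ← sum_add_distrib]
    refine sum_congr rfl fun k _ => ?_
    ring
  rw [e3]
  push_cast
  linarith

/-- the size from the check -/
theorem siz {D P o α M W G : ℕ} (hD : D ≤ 85) (hα : 1 ≤ α) (hM : 1 ≤ M)
    (h1 : 2 * (D + 1) * α * M < XX) (h2 : W + D * (α * M) < XX)
    (hG : ck D P o α M W G = true) : G < 2 ^ 9744 := by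
  obtain ⟨w, a1, a2, a3, a4⟩ := ck_spec hD hG
  have hX : 2 ≤ XX := by unfold XX; norm_num
  have hαX : α < XX := by nlinarith [Nat.mul_le_mul (Nat.mul_le_mul_left (2 * (D + 1)) (le_refl α)) hM]
  have hMX : M < XX := by nlinarith [Nat.mul_le_mul (Nat.mul_le_mul_left (2 * (D + 1)) hα) (le_refl M)]
  have hw : w < XX := by omega
  obtain ⟨p1, p2⟩ := halves (K := 86) (d := dk P) (e := ek G) (w := w) hX (by omega) a3 a4 hαX
    hMX hw
  have e1 : (2 : ℕ) ^ 9744 = XX ^ 87 * XX ^ 87 := by rw [XX, ← pow_mul, ← pow_add]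
  rw [e1, a1]
  have p3 : PB XX 86 D w (ek G) + 1 ≤ XX ^ 87 := p2
  have p4 := Nat.mul_le_mul_left (XX ^ 87) p3
  have p5 : PA XX D w (dk P) (ek G) < XX ^ 87 := p1
  rw [mul_add, mul_one] at p4
  omega

/-- statement VAL for one type -/
theorem val_type {t D P o α M W : ℕ} (hD : D ≤ 85) (hα : 1 ≤ α) (hM : 1 ≤ M)
    (h1 : 2 * (D + 1) * α * M < XX) (h2 : W + D * (α * M) < XX)
    (h3 : (W : ℤ) = cof + o ^ 2 * ∑ k ∈ range D, (dk P k : ℤ))
    (h4 : dm t = D) (h5 : ofs t = o) (h6 : ∀ k < D, dw t k = dk P k)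
    (h7 : ∀ f < 1024, ck D P o α M W (gR (1024 * t + f)) = true) :
    (∀ f < 1024, ∀ g < 1024, (dd (1024 * t + f) (1024 * t + g) : ℤ) =
      cof + ∑ k ∈ range (dm t), (dw t k : ℤ) * ((el t f k : ℤ) - ofs t) *
        ((el t g k : ℤ) - ofs t)) ∧ ∀ f < 1024, gR (1024 * t + f) < 2 ^ 9744 := by
  refine ⟨fun f hf g hg => ?_, fun f hf => siz hD hα hM h1 h2 (h7 f hf)⟩
  have h8 := val hD hα hM h1 h2 h3 (h7 f hf) (h7 g hg)
  rw [dd, h8, h4, h5]
  congr 1
  refine sum_congr rfl fun k hk => ?_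
  rw [h6 k (mem_range.1 hk)]
  have e1 : ∀ f, el t f k = ek (gR (1024 * t + f)) k := by
    intro f
    rw [el, ek]
    generalize gR (1024 * t + f) = G
    rfl
  rw [e1, e1]

end Pool.Agent.Y888.Q440
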