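import Pool.Agent.Y888.Q440.Gen

/-!
# The digits of the records (task VAL): data checks
-/

set_option autoImplicit false
set_option maxRecDepth 100000

namespace Pool.Agent.Y888.Q440

open Finset Pool.Agent.Y440 Pool.Agent.Y440.K

attribute [local irreducible] Pool.Agent.Y440.K.gR

/-- packed weights -/
def P0 : ℕ := 0x3e5208003e5208003e5208003e5208003e5208003e52080006c4330006c4330006c4330006c4330006c4330006c4330054cbe80054cbe80054cbe80054cbe80054cbe803d78b1c

theorem c0_0 : ct 0 1024 18 P0 500 43766642500 1000 1247953643941168 = true := by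
  decide +kernel

theorem v0 : (∀ f < 1024, ∀ g < 1024, (dd (1024 * 0 + f) (1024 * 0 + g) : ℤ) =
      cof + ∑ k ∈ range (dm 0), (dw 0 k : ℤ) * ((el 0 f k : ℤ) - ofs 0) *
        ((el 0 g k : ℤ) - ofs 0)) ∧ ∀ f < 1024, gR (1024 * 0 + f) < 2 ^ 9744 := by
  refine val_type (t := 0) (D := 18) (P := P0) (o := 500) (α := 43766642500) (M := 1000)
    (W := 1247953643941168) (by norm_num) (by norm_num) (by norm_num) (by unfold XX; norm_num)
    (by unfold XX; norm_num) ?_ (by decide +kernel) (by decide +kernel) (by decide +kernel) ?_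
  · rw [← Nat.cast_sum, cof]
    have h : ∑ k ∈ range 18, dk P0 k = 119409670 := by decide +kernel
    rw [h]
    norm_num
  · intro f hf
    exact ct_spec c0_0 f hf

/-- packed weights -/
def P3 : ℕ := 0xd1e30001ff4a00000d6c0000bcbb000203150015ff350015ff350015ff35003c59a9003c59a9003c59a9002d6c64002d6c64002d6c6400167b3b00167b3b00167b3b000bd5fd000bd5fd000bd5fd000948ba000948ba000948ba00017fa700017fa700017fa700270518002924a800578995007d60e7002d1407004203fa00957313000183fb

theorem c3_0 : ct 3072 1024 34 P3 1406 15915774875 2431 1357937617523940 = true := by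
  decide +kernel

theorem v3 : (∀ f < 1024, ∀ g < 1024, (dd (1024 * 3 + f) (1024 * 3 + g) : ℤ) =
      cof + ∑ k ∈ range (dm 3), (dw 3 k : ℤ) * ((el 3 f k : ℤ) - ofs 3) *
        ((el 3 g k : ℤ) - ofs 3)) ∧ ∀ f < 1024, gR (1024 * 3 + f) < 2 ^ 9744 := by
  refine val_type (t := 3) (D := 34) (P := P3) (o := 1406) (α := 15915774875) (M := 2431)
    (W := 1357937617523940) (by norm_num) (by norm_num) (by norm_num) (by unfold XX; norm_num)
    (by unfold XX; norm_num) ?_ (by decide +kernel) (by decide +kernel) (by decide +kernel) ?_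
  · rw [← Nat.cast_sum, cof]
    have h : ∑ k ∈ range 34, dk P3 k = 70737477 := by decide +kernel
    rw [h]
    norm_num
  · intro f hf
    exact ct_spec c3_0 f hf

/-- packed weights -/
def P4 : ℕ := 0xc0106000c0106000c01060004385e0033fb6000342a42003fc21600023e4a00023e4a00023e4a00126c2b00126c2b00126c2b0011fd8a0011fd8a0011fd8a000eca95000eca95000eca950020982a0020982a0020982a00028f0300028f0300028f03002c4005002c4005002c40050001e6980001e6980001e698003a02ce003a02ce003a02ce0012db3c0012db3c0012db3c00337a6800337a6800337a680018c6c4001ec256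

theorem c4_0 : ct 4096 1024 42 P4 500 4178454000 1000 1235352982941168 = true := by
  decide +kernel

theorem v4 : (∀ f < 1024, ∀ g < 1024, (dd (1024 * 4 + f) (1024 * 4 + g) : ℤ) =
      cof + ∑ k ∈ range (dm 4), (dw 4 k : ℤ) * ((el 4 f k : ℤ) - ofs 4) *
        ((el 4 g k : ℤ) - ofs 4)) ∧ ∀ f < 1024, gR (1024 * 4 + f) < 2 ^ 9744 := by
  refine val_type (t := 4) (D := 42) (P := P4) (o := 500) (α := 4178454000) (M := 1000)
    (W := 1235352982941168) (by norm_num) (by norm_num) (by norm_num) (by unfold XX; norm_num)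
    (by unfold XX; norm_num) ?_ (by decide +kernel) (by decide +kernel) (by decide +kernel) ?_
  · rw [← Nat.cast_sum, cof]
    have h : ∑ k ∈ range 42, dk P4 k = 69007026 := by decide +kernel
    rw [h]
    norm_num
  · intro f hf
    exact ct_spec c4_0 f hf

/-- packed weights -/
def P5 : ℕ := 0x383f1000aa8c300019e7800202459002991ee0048861d0048861d0048861d002f0f4e002f0f4e002f0f4e002784ff002784ff002784ff00341d8f00341d8f00341d8f000e53f3000e53f3000e53f3001d63e5001d63e5001d63e5000a12c1000a12c1000a12c10009a0770009a0770009a077000b5bd0000b5bd0000b5bd000ab0e220020e40d002ff4050074445a001538b80006e5a5000177ca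

theorem c5_0 : ct 5120 1024 39 P5 502 10907596602 1002 1240318395781052 = true := by
  decide +kernel

theorem v5 : (∀ f < 1024, ∀ g < 1024, (dd (1024 * 5 + f) (1024 * 5 + g) : ℤ) =
      cof + ∑ k ∈ range (dm 5), (dw 5 k : ℤ) * ((el 5 f k : ℤ) - ofs 5) *
        ((el 5 g k : ℤ) - ofs 5)) ∧ ∀ f < 1024, gR (1024 * 5 + f) < 2 ^ 9744 := by
  refine val_type (t := 5) (D := 39) (P := P5) (o := 502) (α := 10907596602) (M := 1002)
    (W := 1240318395781052) (by norm_num) (by norm_num) (by norm_num) (by unfold XX; norm_num)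
    (by unfold XX; norm_num) ?_ (by decide +kernel) (by decide +kernel) (by decide +kernel) ?_
  · rw [← Nat.cast_sum, cof]
    have h : ∑ k ∈ range 39, dk P5 k = 88161971 := by decide +kernel
    rw [h]
    norm_num
  · intro f hf
    exact ct_spec c5_0 f hf

end Pool.Agent.Y888.Q440
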